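import Pool.Agent.Y494.PK.Stm

/-!
# Project PK: structure of rich graphs
-/

set_option autoImplicit false

namespace Pool.Agent.Y306.PK

open Pool.Agent.Y494.PK Classical

/-- interleaving of two lists -/
def il {V : Type} : List V → List V → List V
  | c :: cs, w :: ws => c :: w :: il cs ws
  | _, _ => []

theorem il_perm {V : Type} : ∀ cs ws : List V, cs.length = ws.length →
    (il cs ws).Perm (cs ++ ws)
  | [], [], _ => List.Perm.refl _
  | [], w :: ws, h => by simp at h
  | c :: cs, [], h => by simp at h
  | c :: cs, w :: ws, h => by
    have ih := il_perm cs ws (by simpa using h)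
    show (c :: w :: il cs ws).Perm (c :: (cs ++ w :: ws))
    refine List.Perm.cons c ?_
    exact (List.Perm.cons w ih).trans List.perm_middle.symm

theorem il_chain {V : Type} (G : SimpleGraph V) (suf : List V) (hs : suf.IsChain G.Adj) :
    ∀ cs ws : List V, cs.length = ws.length → (∀ c ∈ cs, ∀ w ∈ ws, G.Adj c w) →
    (∀ w, ws.getLast? = some w → ∀ s, suf.head? = some s → G.Adj w s) →
    (il cs ws ++ suf).IsChain G.Adj
  | [], [], _, _, _ => hs
  | [], w :: ws, h, _, _ => by simp at h
  | c :: cs, [], h, _, _ => by simp at h
  | c :: cs, w :: ws, h, h1, h2 => by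
    have hlen : cs.length = ws.length := by simpa using h
    have ih := il_chain G suf hs cs ws hlen
      (fun a ha b hb => h1 a (List.mem_cons_of_mem _ ha) b (List.mem_cons_of_mem _ hb))
      (fun b hb s hs' => h2 b (by
        cases ws with
        | nil => simp at hb
        | cons w' ws' => rw [List.getLast?_cons_cons]; exact hb) s hs')
    show (c :: w :: (il cs ws ++ suf)).IsChain G.Adj
    rw [List.isChain_cons_cons]
    refine ⟨h1 c List.mem_cons_self w List.mem_cons_self, ?_⟩
    rw [List.isChain_cons]
    refine ⟨?_, ih⟩
    intro y hy
    cases cs with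
    | nil =>
      cases ws with
      | nil => exact h2 w rfl y hy
      | cons w' ws' => simp at hlen
    | cons c' cs' =>
      cases ws with
      | nil => simp at hlen
      | cons w' ws' =>
        have hy' : c' = y := by
          have : (il (c' :: cs') (w' :: ws') ++ suf).head? = some c' := rfl
          rw [this] at hy
          exact Option.some.inj hy
        rw [← hy']
        exact (h1 c' (by simp) w (by simp)).symm

theorem il_head {V : Type} (suf : List V) : ∀ cs ws : List V, cs.length = ws.length → ∀ c,
    cs.head? = some c → (il cs ws ++ suf).head? = some c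
  | [], [], _, _, h => by simp at h
  | [], w :: ws, h, _, _ => by simp at h
  | c :: cs, [], h, _, _ => by simp at h
  | c :: cs, w :: ws, _, _, h => h

/-- choice of a list in a large set -/
theorem pick {V : Type} [Fintype V] (W : Set V) (F : Finset V) (k : ℕ)
    (h : k + F.card ≤ W.ncard) :
    ∃ ws : List V, ws.Nodup ∧ ws.length = k ∧ ∀ w ∈ ws, w ∈ W ∧ w ∉ F := by
  have h1 : k ≤ (W.toFinset \ F).card := by
    have := Finset.le_card_sdiff F W.toFinset
    rw [← Set.ncard_eq_toFinset_card'] at this
    omega
  obtain ⟨T, hT, hTc⟩ := Finset.exists_subset_card_eq h1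
  refine ⟨T.toList, T.nodup_toList, by rw [Finset.length_toList, hTc], ?_⟩
  intro w hw
  rw [Finset.mem_toList] at hw
  have := hT hw
  rw [Finset.mem_sdiff, Set.mem_toFinset] at this
  exact this

/-- the long path -/
theorem longp {V : Type} (G : SimpleGraph V) (l : ℕ) (hnl : NoLong G l)
    (pre cs ws suf : List V) (hlen : cs.length = ws.length)
    (hcw : ∀ c ∈ cs, ∀ w ∈ ws, G.Adj c w)
    (hpre : (pre ++ (il cs ws ++ suf)).IsChain G.Adj)
    (hnd : (pre ++ (cs ++ (ws ++ suf))).Nodup) :
    pre.length + 2 * cs.length + suf.length ≤ 2 * l := by
  have hp : (pre ++ (il cs ws ++ suf)).Perm (pre ++ (cs ++ (ws ++ suf))) := by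
    apply List.Perm.append_left
    rw [← List.append_assoc]
    exact List.Perm.append_right _ (il_perm cs ws hlen)
  have h1 := hnl (pre ++ (il cs ws ++ suf)) ⟨hp.nodup_iff.2 hnd, hpre⟩
  rw [hp.length_eq] at h1
  simp only [List.length_append] at h1
  omega

theorem ex1 : ∀ (V : Type) [Fintype V] (G : SimpleGraph V) (l : ℕ), 2 ≤ l → NoLong G l →
    ∀ (C : Finset V) (v : V), C.card = l - 1 → v ∉ C → (∀ c ∈ C, G.Adj v c) →
    3 * l ≤ {x : V | ∀ c ∈ C, G.Adj x c}.ncard → 3 * l ≤ dg G v →
    (∀ m, G.Adj v m → m ∉ C → ∀ y, G.Adj m y → y = v) ∧
    (∀ b, b ∉ C → b ≠ v → (∃ c ∈ C, G.Adj b c) → ∀ y, G.Adj b y → y ∈ C) := by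
  intro V _ G l hl hnl C v hC hvC hCv hW hdv
  have hWC : ∀ w, (∀ c ∈ C, G.Adj w c) → w ∉ C := fun w hw hwC => G.loopless.irrefl w (hw w hwC)
  have part1 : ∀ m, G.Adj v m → m ∉ C → ∀ y, G.Adj m y → y = v := by
    intro m hvm hmC y hmy
    by_contra hyv
    by_cases hyC : y ∈ C
    · -- use another leaf
      obtain ⟨ms, hms1, hms2, hms3⟩ := pick (G.neighborSet v) (insert m C) 1 (by
        have := Finset.card_insert_le m C
        unfold dg at hdv
        omega)
      obtain ⟨m', rfl⟩ := List.length_eq_one_iff.1 hms2
      have hm' := hms3 m' (by simp)
      rw [Finset.mem_insert] at hm'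
      push Not at hm'
      obtain ⟨hm'v, hm'm, hm'C⟩ := hm'
      obtain ⟨ws, hws1, hws2, hws3⟩ := pick {x : V | ∀ c ∈ C, G.Adj x c}
        ({m', v, m} : Finset V) (l - 1) (by
          have : ({m', v, m} : Finset V).card ≤ 3 := Finset.card_le_three
          omega)
      have hcl : (y :: (C.erase y).toList).length = ws.length := by
        rw [List.length_cons, Finset.length_toList, Finset.card_erase_of_mem hyC, hws2]
        omega
      have hcm : ∀ c ∈ y :: (C.erase y).toList, c ∈ C := by
        intro c hc
        rw [List.mem_cons, Finset.mem_toList, Finset.mem_erase] at hc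
        rcases hc with rfl | hc
        · exact hyC
        · exact hc.2
      have hcw : ∀ c ∈ y :: (C.erase y).toList, ∀ w ∈ ws, G.Adj c w := by
        intro c hc w hw
        exact ((hws3 w hw).1 c (hcm c hc)).symm
      have h1 := longp G l hnl [m', v, m] (y :: (C.erase y).toList) ws [] hcl hcw
        (by
          have h2 := il_chain G [] (by simp) (y :: (C.erase y).toList) ws hcl hcw (by simp)
          have h3 := il_head [] (y :: (C.erase y).toList) ws hcl y rfl
          show (m' :: v :: m :: (il (y :: (C.erase y).toList) ws ++ [])).IsChain G.Adj
          rw [List.isChain_cons_cons, List.isChain_cons_cons, List.isChain_cons]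
          refine ⟨(show G.Adj v m' from hm'v).symm, hvm, ?_, h2⟩
          intro z hz
          rw [h3] at hz
          rw [← Option.some.inj hz]
          exact hmy)
        (by
          rw [List.append_nil, List.nodup_append', List.nodup_append']
          refine ⟨?_, ⟨?_, hws1, ?_⟩, ?_⟩
          · simp only [List.nodup_cons, List.mem_cons, List.not_mem_nil, or_false, not_or,
              not_false_eq_true, List.nodup_nil, and_true]
            exact ⟨⟨(show G.Adj v m' from hm'v).ne.symm, hm'm⟩, hvm.ne⟩
          · rw [List.nodup_cons]
            refine ⟨?_, Finset.nodup_toList _⟩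
            rw [Finset.mem_toList]
            exact Finset.notMem_erase _ _
          · intro c hc hc2
            exact hWC c (hws3 c hc2).1 (hcm c hc)
          · intro z hz hz2
            rw [List.mem_append] at hz2
            have hzF : z = m' ∨ z = v ∨ z = m := by simpa using hz
            rcases hz2 with hz2 | hz2
            · have := hcm z hz2
              rcases hzF with rfl | rfl | rfl
              · exact hm'C this
              · exact hvC this
              · exact hmC this
            · apply (hws3 z hz2).2
              rcases hzF with rfl | rfl | rfl <;> simp)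
      simp only [List.length_cons, List.length_nil, Finset.length_toList,
        Finset.card_erase_of_mem hyC] at h1
      omega
    · obtain ⟨ws, hws1, hws2, hws3⟩ := pick {x : V | ∀ c ∈ C, G.Adj x c}
        ({y, m, v} : Finset V) (l - 1) (by
          have : ({y, m, v} : Finset V).card ≤ 3 := Finset.card_le_three
          omega)
      have hcl : C.toList.length = ws.length := by rw [Finset.length_toList, hws2, hC]
      have hcw : ∀ c ∈ C.toList, ∀ w ∈ ws, G.Adj c w := by
        intro c hc w hw
        exact ((hws3 w hw).1 c (Finset.mem_toList.1 hc)).symm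
      have h1 := longp G l hnl [y, m, v] C.toList ws [] hcl hcw
        (by
          have h2 := il_chain G [] (by simp) C.toList ws hcl hcw (by simp)
          show (y :: m :: v :: (il C.toList ws ++ [])).IsChain G.Adj
          rw [List.isChain_cons_cons, List.isChain_cons_cons, List.isChain_cons]
          refine ⟨hmy.symm, hvm.symm, ?_, h2⟩
          intro z hz
          rcases hCc : C.toList with _ | ⟨c, cs⟩
          · exfalso
            have := congrArg List.length hCc
            rw [Finset.length_toList, hC, List.length_nil] at this
            omega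
          · have h3 := il_head [] C.toList ws hcl c (by rw [hCc]; rfl)
            rw [h3] at hz
            rw [← Option.some.inj hz]
            apply hCv
            rw [← Finset.mem_toList, hCc]
            exact List.mem_cons_self)
        (by
          rw [List.append_nil, List.nodup_append', List.nodup_append']
          refine ⟨?_, ⟨Finset.nodup_toList _, hws1, ?_⟩, ?_⟩
          · simp only [List.nodup_cons, List.mem_cons, List.not_mem_nil, or_false, not_or,
              not_false_eq_true, List.nodup_nil, and_true]
            exact ⟨⟨hmy.ne.symm, hyv⟩, hvm.ne.symm⟩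
          · intro c hc hc2
            exact hWC c (hws3 c hc2).1 (Finset.mem_toList.1 hc)
          · intro z hz hz2
            rw [List.mem_append, Finset.mem_toList] at hz2
            have hzF : z = y ∨ z = m ∨ z = v := by simpa using hz
            rcases hz2 with hz2 | hz2
            · rcases hzF with rfl | rfl | rfl
              · exact hyC hz2
              · exact hmC hz2
              · exact hvC hz2
            · apply (hws3 z hz2).2
              rcases hzF with rfl | rfl | rfl <;> simp)
      simp only [List.length_cons, List.length_nil, Finset.length_toList, hC] at h1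
      omega
  refine ⟨part1, ?_⟩
  rintro b hbC hbv ⟨c1, hc1, hbc1⟩ y hby
  by_contra hyC
  have hyv : y ≠ v := by
    rintro rfl
    have := part1 b hby.symm hbC c1 hbc1
    exact hvC (this ▸ hc1)
  obtain ⟨ms, hms1, hms2, hms3⟩ := pick (G.neighborSet v) (insert y (insert b C)) 1 (by
    have h1 := Finset.card_insert_le b C
    have h2 := Finset.card_insert_le y (insert b C)
    unfold dg at hdv
    omega)
  obtain ⟨m, rfl⟩ := List.length_eq_one_iff.1 hms2
  have hm := hms3 m (by simp)
  rw [Finset.mem_insert, Finset.mem_insert] at hm
  push Not at hm
  obtain ⟨hmv, hmy, hmb, hmC⟩ := hm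
  have hmv' : G.Adj v m := hmv
  obtain ⟨ws, hws1, hws2, hws3⟩ := pick {x : V | ∀ c ∈ C, G.Adj x c}
    ({y, b, v, m} : Finset V) (l - 2) (by
      have : ({y, b, v, m} : Finset V).card ≤ 4 := Finset.card_le_four
      omega)
  have hcl : (c1 :: (C.erase c1).toList).length = (ws ++ [v]).length := by
    rw [List.length_cons, Finset.length_toList, Finset.card_erase_of_mem hc1, List.length_append,
      hws2, List.length_singleton]
    omega
  have hcm : ∀ c ∈ c1 :: (C.erase c1).toList, c ∈ C := by
    intro c hc
    rw [List.mem_cons, Finset.mem_toList, Finset.mem_erase] at hc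
    rcases hc with rfl | hc
    · exact hc1
    · exact hc.2
  have hcw : ∀ c ∈ c1 :: (C.erase c1).toList, ∀ w ∈ ws ++ [v], G.Adj c w := by
    intro c hc w hw
    rw [List.mem_append] at hw
    rcases hw with hw | hw
    · exact ((hws3 w hw).1 c (hcm c hc)).symm
    · have : w = v := by simpa using hw
      rw [this]
      exact (hCv c (hcm c hc)).symm
  have h1 := longp G l hnl [y, b] (c1 :: (C.erase c1).toList) (ws ++ [v]) [m] hcl hcw
    (by
      have h2 := il_chain G [m] (by simp) (c1 :: (C.erase c1).toList) (ws ++ [v]) hcl hcw
        (by
          intro w hw s hs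
          rw [List.getLast?_append, List.getLast?_singleton, Option.some_or] at hw
          rw [← Option.some.inj hw]
          have hs' : some m = some s := hs
          rw [← Option.some.inj hs']
          exact hmv')
      have h3 := il_head [m] (c1 :: (C.erase c1).toList) (ws ++ [v]) hcl c1 rfl
      show (y :: b :: (il (c1 :: (C.erase c1).toList) (ws ++ [v]) ++ [m])).IsChain G.Adj
      rw [List.isChain_cons_cons, List.isChain_cons]
      refine ⟨hby.symm, ?_, h2⟩
      intro z hz
      rw [h3] at hz
      rw [← Option.some.inj hz]
      exact hbc1)
    (by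
      have hvws : v ∉ ws := fun h => (hws3 v h).2 (by simp)
      have hmws : m ∉ ws := fun h => (hws3 m h).2 (by simp)
      rw [List.nodup_append', List.nodup_append', List.nodup_append', List.nodup_append']
      refine ⟨?_, ⟨?_, ⟨⟨hws1, by simp, ?_⟩, by simp, ?_⟩, ?_⟩, ?_⟩
      · simp only [List.nodup_cons, List.mem_cons, List.not_mem_nil, or_false,
          not_false_eq_true, List.nodup_nil, and_true]
        exact hby.ne.symm
      · rw [List.nodup_cons]
        refine ⟨?_, Finset.nodup_toList _⟩
        rw [Finset.mem_toList]
        exact Finset.notMem_erase _ _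
      · intro z hz hz2
        have : z = v := by simpa using hz2
        exact hvws (this ▸ hz)
      · intro z hz hz2
        have hzm : z = m := by simpa using hz2
        rw [List.mem_append] at hz
        rcases hz with hz | hz
        · exact hmws (hzm ▸ hz)
        · have : z = v := by simpa using hz
          exact hmv'.ne (this.symm.trans hzm)
      · intro z hz hz2
        have hzC := hcm z hz
        rw [List.mem_append, List.mem_append] at hz2
        rcases hz2 with (hz2 | hz2) | hz2
        · exact hWC z (hws3 z hz2).1 hzC
        · have : z = v := by simpa using hz2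
          exact hvC (this ▸ hzC)
        · have : z = m := by simpa using hz2
          exact hmC (this ▸ hzC)
      · intro z hz hz2
        have hzF : z = y ∨ z = b := by simpa using hz
        rw [List.mem_append, List.mem_append, List.mem_append] at hz2
        rcases hz2 with hz2 | (hz2 | hz2) | hz2
        · have := hcm z hz2
          rcases hzF with rfl | rfl
          · exact hyC this
          · exact hbC this
        · apply (hws3 z hz2).2
          rcases hzF with rfl | rfl <;> simp
        · have hzv : z = v := by simpa using hz2
          rcases hzF with rfl | rfl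
          · exact hyv hzv
          · exact hbv hzv
        · have hzm : z = m := by simpa using hz2
          rcases hzF with rfl | rfl
          · exact hmy hzm.symm
          · exact hmb hzm.symm)
  simp only [List.length_cons, List.length_nil, Finset.length_toList,
    Finset.card_erase_of_mem hc1] at h1
  omega

end Pool.Agent.Y306.PK
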