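import Pool.Agent.Y494.PK.Stm

/-!
# Project PK: the graphs `G_{n,k,m}`
-/

set_option autoImplicit false

namespace Pool.Agent.Y306.PK

open Pool.Agent.Y494.PK Classical

theorem gg_adj {n l m : ℕ} {a b : Fin n} : (GG n l m).Adj a b ↔ a ≠ b ∧
    ((((a : ℕ) < l ∧ (b : ℕ) < l) ∨
    ((a : ℕ) = 0 ∧ l ≤ (b : ℕ) ∧ (b : ℕ) < l + m) ∨
    (1 ≤ (a : ℕ) ∧ (a : ℕ) < l ∧ l + m ≤ (b : ℕ))) ∨
    (((b : ℕ) < l ∧ (a : ℕ) < l) ∨
    ((b : ℕ) = 0 ∧ l ≤ (a : ℕ) ∧ (a : ℕ) < l + m) ∨
    (1 ≤ (b : ℕ) ∧ (b : ℕ) < l ∧ l + m ≤ (a : ℕ)))) := by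
  unfold GG
  rw [SimpleGraph.fromRel_adj]

theorem gg_nolong (n l m : ℕ) (hl : 2 ≤ l) : NoLong (GG n l m) l := by
  intro p hp
  by_contra hcon
  push Not at hcon
  obtain ⟨hnd, hch⟩ := hp
  rw [List.isChain_iff_getElem] at hch
  -- the path as a function
  set f : ℕ → ℕ := fun i => if h : i < p.length then ((p[i]'h : Fin n) : ℕ) else 0 with hf
  have hinj : ∀ i j, i ≤ 2 * l → j ≤ 2 * l → f i = f j → i = j := by
    intro i j hi hj hij
    have hi' : i < p.length := by omega
    have hj' : j < p.length := by omega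
    simp only [hf, dif_pos hi', dif_pos hj'] at hij
    exact (hnd.getElem_inj_iff).1 (Fin.ext hij)
  have hadj : ∀ i, i < 2 * l → f i ≠ f (i + 1) ∧
      ((((f i : ℕ) < l ∧ (f (i + 1) : ℕ) < l) ∨
      ((f i : ℕ) = 0 ∧ l ≤ (f (i + 1) : ℕ) ∧ (f (i + 1) : ℕ) < l + m) ∨
      (1 ≤ (f i : ℕ) ∧ (f i : ℕ) < l ∧ l + m ≤ (f (i + 1) : ℕ))) ∨
      (((f (i + 1) : ℕ) < l ∧ (f i : ℕ) < l) ∨
      ((f (i + 1) : ℕ) = 0 ∧ l ≤ (f i : ℕ) ∧ (f i : ℕ) < l + m) ∨
      (1 ≤ (f (i + 1) : ℕ) ∧ (f (i + 1) : ℕ) < l ∧ l + m ≤ (f i : ℕ)))) := by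
    intro i hi
    have hi' : i < p.length := by omega
    have hj' : i + 1 < p.length := by omega
    have h1 := hch i hj'
    rw [gg_adj] at h1
    refine ⟨fun h => ?_, ?_⟩
    · have := hinj i (i + 1) (by omega) (by omega) h
      omega
    · simp only [hf, dif_pos hi', dif_pos hj']
      exact h1.2
  -- even positions are low
  have heven : ∀ k, k ≤ l → l ≤ f (2 * k) := by
    intro k hk
    by_contra hlt
    push Not at hlt
    have hex : ∀ i : Fin (l + 1), ∃ j, f j < l ∧ j ≤ 2 * l ∧
        (((i : ℕ) < k ∧ (j = 2 * i ∨ j = 2 * i + 1)) ∨ ((i : ℕ) = k ∧ j = 2 * k) ∨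
          (k < (i : ℕ) ∧ (j + 1 = 2 * i ∨ j = 2 * i))) := by
      intro i
      have hi := i.2
      rcases lt_trichotomy (i : ℕ) k with h | h | h
      · have h1 := hadj (2 * i) (by omega)
        by_cases h2 : f (2 * (i : ℕ)) < l
        · exact ⟨2 * i, h2, by omega, Or.inl ⟨h, Or.inl rfl⟩⟩
        · exact ⟨2 * i + 1, by omega, by omega, Or.inl ⟨h, Or.inr rfl⟩⟩
      · exact ⟨2 * k, hlt, by omega, Or.inr (Or.inl ⟨h, rfl⟩)⟩
      · have h1 := hadj (2 * i - 1) (by omega)
        have h3 : 2 * (i : ℕ) - 1 + 1 = 2 * i := by omega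
        rw [h3] at h1
        by_cases h2 : f (2 * (i : ℕ)) < l
        · exact ⟨2 * i, h2, by omega, Or.inr (Or.inr ⟨h, Or.inr rfl⟩)⟩
        · exact ⟨2 * i - 1, by omega, by omega, Or.inr (Or.inr ⟨h, Or.inl h3⟩)⟩
    choose j hj1 hj2 hj3 using hex
    have hinj2 : Function.Injective (fun i : Fin (l + 1) => (⟨f (j i), hj1 i⟩ : Fin l)) := by
      intro a b hab
      have h1 : f (j a) = f (j b) := congrArg Fin.val hab
      have h2 := hinj _ _ (hj2 a) (hj2 b) h1
      have h3 := hj3 a
      have h4 := hj3 b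
      apply Fin.ext
      omega
    have := Fintype.card_le_of_injective _ hinj2
    rw [Fintype.card_fin, Fintype.card_fin] at this
    omega
  have hodd : ∀ k, k < l → f (2 * k + 1) < l := by
    intro k hk
    have h1 := hadj (2 * k) (by omega)
    have h2 := heven k (by omega)
    omega
  have hinj3 : Function.Injective (fun i : Fin l => (⟨f (2 * i + 1), hodd i i.2⟩ : Fin l)) := by
    intro a b hab
    have h1 : f (2 * a + 1) = f (2 * b + 1) := congrArg Fin.val hab
    have h2 := hinj _ _ (by have := a.2; omega) (by have := b.2; omega) h1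
    apply Fin.ext
    omega
  obtain ⟨i, hi⟩ := (Finite.injective_iff_surjective.1 hinj3) ⟨0, by omega⟩
  have hi0 : f (2 * (i : ℕ) + 1) = 0 := congrArg Fin.val hi
  have hil := i.2
  have e1 := heven i (by omega)
  have e2 := heven (i + 1) (by omega)
  have a1 := hadj (2 * i) (by omega)
  have a2 := hadj (2 * i + 1) (by omega)
  have h22 : 2 * (i : ℕ) + 1 + 1 = 2 * (i + 1) := by ring
  rw [h22] at a2
  rcases Nat.eq_zero_or_pos (i : ℕ) with h0 | h0
  · have a3 := hadj (2 * (i + 1)) (by omega)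
    have : f (2 * ((i : ℕ) + 1) + 1) = 0 := by omega
    have := hinj (2 * ((i : ℕ) + 1) + 1) (2 * i + 1) (by omega) (by omega) (by omega)
    omega
  · have a3 := hadj (2 * i - 1) (by omega)
    have h33 : 2 * (i : ℕ) - 1 + 1 = 2 * i := by omega
    rw [h33] at a3
    have : f (2 * (i : ℕ) - 1) = 0 := by omega
    have := hinj (2 * (i : ℕ) - 1) (2 * i + 1) (by omega) (by omega) (by omega)
    omega

/-- reversal of a directed path -/
theorem isDP_rev {V : Type} {G : SimpleGraph V} {l : ℕ} {u w : Fin l → V} (h : IsDP G l u w) :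
    IsDP G l (fun i => w (Fin.rev i)) (fun i => u (Fin.rev i)) := by
  refine ⟨?_, ?_, ?_, ?_, ?_⟩
  · intro a b hab
    exact Fin.rev_injective (h.winj hab)
  · intro a b hab
    exact Fin.rev_injective (h.uinj hab)
  · intro i j hij
    exact h.uw _ _ hij.symm
  · intro i
    exact (h.mat _).symm
  · intro i j hij
    apply (h.con _ _ _).symm
    rw [Fin.val_rev, Fin.val_rev]
    have := i.2
    have := j.2
    omega

variable {n k m : ℕ}

/-- first part of the standard path -/
def uu (hm : m + (k + 1) ≤ n) (s : Equiv.Perm (Fin k)) (a : Fin m) : Fin (k + 1) → Fin n :=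
  Fin.cons ⟨k + 1 + a, by have := a.2; omega⟩
    (fun j => ⟨(s j : ℕ) + 1, by have := (s j).2; omega⟩)

/-- second part of the standard path -/
def ww (hm : m + (k + 1) ≤ n) (b : Fin k ↪ Fin (n - (k + 1) - m)) : Fin (k + 1) → Fin n :=
  Fin.cons ⟨0, by omega⟩ (fun j => ⟨k + 1 + m + (b j : ℕ), by have := (b j).2; omega⟩)

theorem uu_zero (hm : m + (k + 1) ≤ n) (s : Equiv.Perm (Fin k)) (a : Fin m) :
    ((uu hm s a 0 : Fin n) : ℕ) = k + 1 + a := rfl

theorem uu_succ (hm : m + (k + 1) ≤ n) (s : Equiv.Perm (Fin k)) (a : Fin m) (j : Fin k) :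
    ((uu hm s a j.succ : Fin n) : ℕ) = (s j : ℕ) + 1 := rfl

theorem ww_zero (hm : m + (k + 1) ≤ n) (b : Fin k ↪ Fin (n - (k + 1) - m)) :
    ((ww hm b 0 : Fin n) : ℕ) = 0 := rfl

theorem ww_succ (hm : m + (k + 1) ≤ n) (b : Fin k ↪ Fin (n - (k + 1) - m)) (j : Fin k) :
    ((ww hm b j.succ : Fin n) : ℕ) = k + 1 + m + (b j : ℕ) := rfl

theorem isDP_std (hm : m + (k + 1) ≤ n) (s : Equiv.Perm (Fin k)) (a : Fin m)
    (b : Fin k ↪ Fin (n - (k + 1) - m)) :
    IsDP (GG n (k + 1) m) (k + 1) (uu hm s a) (ww hm b) := by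
  have ha := a.2
  refine ⟨?_, ?_, ?_, ?_, ?_⟩
  · intro i j hij
    have h1 := congrArg Fin.val hij
    induction i using Fin.cases with
    | zero =>
      induction j using Fin.cases with
      | zero => rfl
      | succ j =>
        rw [uu_zero, uu_succ] at h1
        have := (s j).2
        omega
    | succ i =>
      induction j using Fin.cases with
      | zero =>
        rw [uu_zero, uu_succ] at h1
        have := (s i).2
        omega
      | succ j =>
        rw [uu_succ, uu_succ] at h1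
        have h2 : s i = s j := Fin.ext (by omega)
        rw [s.injective h2]
  · intro i j hij
    have h1 := congrArg Fin.val hij
    induction i using Fin.cases with
    | zero =>
      induction j using Fin.cases with
      | zero => rfl
      | succ j =>
        rw [ww_zero, ww_succ] at h1
        omega
    | succ i =>
      induction j using Fin.cases with
      | zero =>
        rw [ww_zero, ww_succ] at h1
        omega
      | succ j =>
        rw [ww_succ, ww_succ] at h1
        have h2 : b i = b j := Fin.ext (by omega)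
        rw [b.injective h2]
  · intro i j hij
    have h1 := congrArg Fin.val hij
    induction i using Fin.cases with
    | zero =>
      induction j using Fin.cases with
      | zero =>
        rw [uu_zero, ww_zero] at h1
        omega
      | succ j =>
        rw [uu_zero, ww_succ] at h1
        omega
    | succ i =>
      have := (s i).2
      induction j using Fin.cases with
      | zero =>
        rw [uu_succ, ww_zero] at h1
        omega
      | succ j =>
        rw [uu_succ, ww_succ] at h1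
        omega
  · intro i
    rw [gg_adj]
    induction i using Fin.cases with
    | zero =>
      rw [Ne, Fin.ext_iff, uu_zero, ww_zero]
      omega
    | succ i =>
      have := (s i).2
      rw [Ne, Fin.ext_iff, uu_succ, ww_succ]
      omega
  · intro i j hij
    rw [gg_adj]
    induction j using Fin.cases with
    | zero =>
      exfalso
      have : ((0 : Fin (k + 1)) : ℕ) = 0 := rfl
      omega
    | succ j =>
      have := (s j).2
      induction i using Fin.cases with
      | zero =>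
        rw [Ne, Fin.ext_iff, uu_succ, ww_zero]
        omega
      | succ i =>
        rw [Ne, Fin.ext_iff, uu_succ, ww_succ]
        omega

/-- the map to directed paths -/
def Ph (hm : m + (k + 1) ≤ n)
    (x : Bool × Equiv.Perm (Fin k) × Fin m × (Fin k ↪ Fin (n - (k + 1) - m))) :
    (Fin (k + 1) → Fin n) × (Fin (k + 1) → Fin n) :=
  if x.1 then (uu hm x.2.1 x.2.2.1, ww hm x.2.2.2)
  else (fun i => ww hm x.2.2.2 (Fin.rev i), fun i => uu hm x.2.1 x.2.2.1 (Fin.rev i))

theorem std_inj (hm : m + (k + 1) ≤ n) (s s' : Equiv.Perm (Fin k)) (a a' : Fin m)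
    (b b' : Fin k ↪ Fin (n - (k + 1) - m)) (h1 : uu hm s a = uu hm s' a')
    (h2 : ww hm b = ww hm b') : s = s' ∧ a = a' ∧ b = b' := by
  refine ⟨?_, ?_, ?_⟩
  · ext j
    have := congrArg Fin.val (congrFun h1 j.succ)
    rw [uu_succ, uu_succ] at this
    omega
  · have := congrArg Fin.val (congrFun h1 0)
    rw [uu_zero, uu_zero] at this
    apply Fin.ext
    omega
  · ext j
    have := congrArg Fin.val (congrFun h2 j.succ)
    rw [ww_succ, ww_succ] at this
    omega

theorem Ph_inj (hk : 1 ≤ k) (hm : m + (k + 1) ≤ n) : Function.Injective (Ph (k := k) hm) := by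
  have hrev : ∀ f g : Fin (k + 1) → Fin n, (fun i => f (Fin.rev i)) = (fun i => g (Fin.rev i)) →
      f = g := by
    intro f g h
    funext i
    have := congrFun h (Fin.rev i)
    simpa only [Fin.rev_rev] using this
  have hne : ∀ (s : Equiv.Perm (Fin k)) (a : Fin m) (b : Fin k ↪ Fin (n - (k + 1) - m)),
      uu hm s a ≠ fun i => ww hm b (Fin.rev i) := by
    intro s a b h
    have h1 := congrArg Fin.val (congrFun h 0)
    have h2 : Fin.rev (0 : Fin (k + 1)) = Fin.succ ⟨k - 1, by omega⟩ := by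
      apply Fin.ext
      rw [Fin.val_rev, Fin.val_succ]
      show k + 1 - (0 + 1) = k - 1 + 1
      omega
    rw [h2, uu_zero, ww_succ] at h1
    have := a.2
    omega
  rintro ⟨d, s, a, b⟩ ⟨d', s', a', b'⟩ h
  cases d <;> cases d'
  · have h' : ((fun i => ww hm b (Fin.rev i)), fun i => uu hm s a (Fin.rev i)) =
      ((fun i => ww hm b' (Fin.rev i)), fun i => uu hm s' a' (Fin.rev i)) := h
    rw [Prod.mk.injEq] at h'
    obtain ⟨rfl, rfl, rfl⟩ := std_inj hm s s' a a' b b' (hrev _ _ h'.2) (hrev _ _ h'.1)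
    rfl
  · exfalso
    have h' : ((fun i => ww hm b (Fin.rev i)), fun i => uu hm s a (Fin.rev i)) =
      (uu hm s' a', ww hm b') := h
    rw [Prod.mk.injEq] at h'
    exact hne _ _ _ h'.1.symm
  · exfalso
    have h' : (uu hm s a, ww hm b) =
      ((fun i => ww hm b' (Fin.rev i)), fun i => uu hm s' a' (Fin.rev i)) := h
    rw [Prod.mk.injEq] at h'
    exact hne _ _ _ h'.1
  · have h' : (uu hm s a, ww hm b) = (uu hm s' a', ww hm b') := h
    rw [Prod.mk.injEq] at h'
    obtain ⟨rfl, rfl, rfl⟩ := std_inj hm s s' a a' b b' h'.1 h'.2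
    rfl

theorem gg : S_GG := by
  intro n l m hl hm
  refine ⟨gg_nolong n l m hl, ?_⟩
  obtain ⟨k, rfl⟩ : ∃ k, l = k + 1 := ⟨l - 1, by omega⟩
  have hk : 1 ≤ k := by omega
  have hsub : Set.range (Ph (k := k) hm) ⊆ DP (GG n (k + 1) m) (k + 1) := by
    rintro _ ⟨⟨d, s, a, b⟩, rfl⟩
    cases d
    · exact isDP_rev (isDP_std hm s a b)
    · exact isDP_std hm s a b
  refine le_trans (le_of_eq ?_) (Set.ncard_le_ncard hsub (Set.toFinite _))
  rw [← Set.image_univ, Set.ncard_image_of_injective _ (Ph_inj hk hm), Set.ncard_univ,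
    Nat.card_eq_fintype_card]
  simp only [Fintype.card_prod, Fintype.card_bool, Fintype.card_perm, Fintype.card_fin,
    Fintype.card_embedding_eq]
  unfold PP
  rw [Nat.add_sub_cancel]
  ring

end Pool.Agent.Y306.PK
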