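import Pool.Agent.Y494.PK.Stm

/-!
# Project PK: copies of paths and directed paths
-/

set_option autoImplicit false

namespace Pool.Agent.Y306.PK

open Pool.Agent.Y494.PK Classical

theorem j1b : S_J1b := by
  intro n l G
  constructor
  · intro hfree p hp
    by_contra hcon
    push Not at hcon
    apply hfree
    obtain ⟨hnd, hch⟩ := hp
    rw [List.isChain_iff_getElem] at hch
    refine ⟨⟨⟨fun i => p[(i : ℕ)]'(by have := i.2; omega), ?_⟩, ?_⟩⟩
    · intro a b hab
      rw [SimpleGraph.pathGraph_adj] at hab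
      rcases hab with h | h
      · have h1 := hch a (by have := b.2; omega)
        simp only [h] at h1
        exact h1
      · have h1 := hch b (by have := a.2; omega)
        simp only [h] at h1
        exact h1.symm
    · intro a b hab
      have h1 : p[(a : ℕ)]'(by have := a.2; omega) = p[(b : ℕ)]'(by have := b.2; omega) := hab
      exact Fin.ext ((hnd.getElem_inj_iff).1 h1)
  · intro hno hcon
    obtain ⟨f⟩ := hcon
    have hlp : LP G (List.ofFn (fun i : Fin (2 * l + 1) => f i)) := by
      refine ⟨List.nodup_ofFn.2 f.injective, ?_⟩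
      rw [List.isChain_iff_getElem]
      intro i hi
      rw [List.getElem_ofFn, List.getElem_ofFn]
      apply f.toHom.map_adj
      rw [SimpleGraph.pathGraph_adj]
      left
      rfl
    have := hno _ hlp
    rw [List.length_ofFn] at this
    omega

/-- automorphisms of a path -/
theorem aut {m : ℕ} (σ : Fin m → Fin m) (hinj : Function.Injective σ)
    (hstep : ∀ i j : Fin m, (j : ℕ) = i + 1 → ((σ i : ℕ) + 1 = σ j ∨ (σ j : ℕ) + 1 = σ i)) :
    (∀ i, σ i = i) ∨ ∀ i, σ i = Fin.rev i := by
  rcases Nat.lt_or_ge m 2 with hm | hm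
  · left
    intro i
    apply Fin.ext
    have := (σ i).2
    have := i.2
    omega
  -- the direction is constant
  have h0 : (0 : ℕ) < m := by omega
  have h1 : (1 : ℕ) < m := by omega
  have hno : ∀ (a b c : Fin m), (b : ℕ) = a + 1 → (c : ℕ) = b + 1 → (σ a : ℕ) ≠ σ c := by
    intro a b c hab hbc h
    have := hinj (Fin.ext h)
    have h3 := congrArg Fin.val this
    omega
  rcases hstep ⟨0, h0⟩ ⟨1, h1⟩ rfl with hd | hd
  · have key : ∀ k : ℕ, ∀ hk : k + 1 < m, ((σ ⟨k, by omega⟩ : ℕ) + 1 = σ ⟨k + 1, hk⟩) ∧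
        (σ ⟨k + 1, hk⟩ : ℕ) = (σ ⟨0, h0⟩ : ℕ) + (k + 1) := by
      intro k
      induction k with
      | zero =>
        intro hk
        exact ⟨hd, by rw [← hd]⟩
      | succ k ih =>
        intro hk
        obtain ⟨i1, i2⟩ := ih (by omega)
        have h5 := hno ⟨k, by omega⟩ ⟨k + 1, by omega⟩ ⟨k + 1 + 1, hk⟩ rfl rfl
        rcases hstep ⟨k + 1, by omega⟩ ⟨k + 1 + 1, hk⟩ rfl with h | h
        · exact ⟨h, by omega⟩
        · exfalso
          omega
    have hs0 : (σ ⟨0, h0⟩ : ℕ) = 0 := by
      have h6 := (key (m - 2) (by omega)).2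
      have h7 := (σ ⟨m - 2 + 1, by omega⟩).2
      omega
    left
    intro i
    apply Fin.ext
    rcases Nat.eq_zero_or_pos (i : ℕ) with hi | hi
    · have : i = ⟨0, h0⟩ := Fin.ext hi
      rw [this]
      exact hs0
    · have h6 := (key ((i : ℕ) - 1) (by have := i.2; omega)).2
      have h7 : (⟨(i : ℕ) - 1 + 1, by have := i.2; omega⟩ : Fin m) = i := Fin.ext (by simp; omega)
      rw [h7] at h6
      omega
  · have key : ∀ k : ℕ, ∀ hk : k + 1 < m, ((σ ⟨k + 1, hk⟩ : ℕ) + 1 = σ ⟨k, by omega⟩) ∧
        (σ ⟨k + 1, hk⟩ : ℕ) + (k + 1) = (σ ⟨0, h0⟩ : ℕ) := by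
      intro k
      induction k with
      | zero =>
        intro hk
        exact ⟨hd, hd⟩
      | succ k ih =>
        intro hk
        obtain ⟨i1, i2⟩ := ih (by omega)
        have h5 := hno ⟨k, by omega⟩ ⟨k + 1, by omega⟩ ⟨k + 1 + 1, hk⟩ rfl rfl
        rcases hstep ⟨k + 1, by omega⟩ ⟨k + 1 + 1, hk⟩ rfl with h | h
        · exfalso
          omega
        · exact ⟨h, by omega⟩
    have hs0 : (σ ⟨0, h0⟩ : ℕ) = m - 1 := by
      have h6 := (key (m - 2) (by omega)).2
      have h7 := (σ ⟨0, h0⟩).2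
      omega
    right
    intro i
    apply Fin.ext
    rw [Fin.val_rev]
    rcases Nat.eq_zero_or_pos (i : ℕ) with hi | hi
    · have : i = ⟨0, h0⟩ := Fin.ext hi
      rw [this]
      simp only
      omega
    · have h6 := (key ((i : ℕ) - 1) (by have := i.2; omega)).2
      have h7 : (⟨(i : ℕ) - 1 + 1, by have := i.2; omega⟩ : Fin m) = i := Fin.ext (by simp; omega)
      rw [h7] at h6
      omega

/-- directed paths are copies of the path -/
noncomputable def dpEquiv {V : Type} (G : SimpleGraph V) (l : ℕ) :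
    DP G l ≃ SimpleGraph.Copy (SimpleGraph.pathGraph (2 * l)) G where
  toFun p := ⟨⟨fun i => if (i : ℕ) % 2 = 0 then p.1.1 ⟨(i : ℕ) / 2, by have := i.2; omega⟩
      else p.1.2 ⟨(i : ℕ) / 2, by have := i.2; omega⟩, by
    intro a b hab
    have hp : IsDP G l p.1.1 p.1.2 := p.2
    rw [SimpleGraph.pathGraph_adj] at hab
    have main : ∀ a b : Fin (2 * l), (a : ℕ) + 1 = b →
        G.Adj (if (a : ℕ) % 2 = 0 then p.1.1 ⟨(a : ℕ) / 2, by have := a.2; omega⟩
          else p.1.2 ⟨(a : ℕ) / 2, by have := a.2; omega⟩)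
        (if (b : ℕ) % 2 = 0 then p.1.1 ⟨(b : ℕ) / 2, by have := b.2; omega⟩
          else p.1.2 ⟨(b : ℕ) / 2, by have := b.2; omega⟩) := by
      intro a b h
      rcases Nat.mod_two_eq_zero_or_one (a : ℕ) with ha | ha
      · have hb : ¬ (b : ℕ) % 2 = 0 := by omega
        rw [if_pos ha, if_neg hb]
        have : (⟨(a : ℕ) / 2, by have := a.2; omega⟩ : Fin l) =
          ⟨(b : ℕ) / 2, by have := b.2; omega⟩ := Fin.ext (by simp only; omega)
        rw [this]
        exact hp.mat _
      · have ha' : ¬ (a : ℕ) % 2 = 0 := by omega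
        have hb : (b : ℕ) % 2 = 0 := by omega
        rw [if_neg ha', if_pos hb]
        exact hp.con _ _ (by simp only; omega)
    rcases hab with h | h
    · exact main a b h
    · exact (main b a h).symm⟩, by
    intro a b hab
    have hp : IsDP G l p.1.1 p.1.2 := p.2
    have hab' : (if (a : ℕ) % 2 = 0 then p.1.1 ⟨(a : ℕ) / 2, by have := a.2; omega⟩
          else p.1.2 ⟨(a : ℕ) / 2, by have := a.2; omega⟩) =
        (if (b : ℕ) % 2 = 0 then p.1.1 ⟨(b : ℕ) / 2, by have := b.2; omega⟩
          else p.1.2 ⟨(b : ℕ) / 2, by have := b.2; omega⟩) := hab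
    apply Fin.ext
    by_cases ha : (a : ℕ) % 2 = 0 <;> by_cases hb : (b : ℕ) % 2 = 0
    · rw [if_pos ha, if_pos hb] at hab'
      have := congrArg Fin.val (hp.uinj hab')
      simp only at this
      omega
    · rw [if_pos ha, if_neg hb] at hab'
      exact absurd hab' (hp.uw _ _)
    · rw [if_neg ha, if_pos hb] at hab'
      exact absurd hab'.symm (hp.uw _ _)
    · rw [if_neg ha, if_neg hb] at hab'
      have := congrArg Fin.val (hp.winj hab')
      simp only at this
      omega⟩
  invFun f := ⟨(fun j => f ⟨2 * (j : ℕ), by have := j.2; omega⟩,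
      fun j => f ⟨2 * (j : ℕ) + 1, by have := j.2; omega⟩), by
    refine ⟨?_, ?_, ?_, ?_, ?_⟩
    · intro a b hab
      have := congrArg Fin.val (f.injective hab)
      apply Fin.ext
      simp only at this
      omega
    · intro a b hab
      have := congrArg Fin.val (f.injective hab)
      apply Fin.ext
      simp only at this
      omega
    · intro i j hij
      have := congrArg Fin.val (f.injective hij)
      simp only at this
      omega
    · intro i
      apply f.toHom.map_adj
      rw [SimpleGraph.pathGraph_adj]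
      left
      rfl
    · intro i j hij
      apply f.toHom.map_adj
      rw [SimpleGraph.pathGraph_adj]
      left
      simp only
      omega⟩
  left_inv p := by
    apply Subtype.ext
    apply Prod.ext
    · funext j
      show (if (2 * (j : ℕ)) % 2 = 0 then p.1.1 ⟨(2 * (j : ℕ)) / 2, _⟩
        else p.1.2 ⟨(2 * (j : ℕ)) / 2, _⟩) = p.1.1 j
      rw [if_pos (by omega)]
      exact congrArg p.1.1 (Fin.ext (by show (2 * (j : ℕ)) / 2 = (j : ℕ); omega))
    · funext j
      show (if (2 * (j : ℕ) + 1) % 2 = 0 then p.1.1 ⟨(2 * (j : ℕ) + 1) / 2, _⟩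
        else p.1.2 ⟨(2 * (j : ℕ) + 1) / 2, _⟩) = p.1.2 j
      rw [if_neg (by omega)]
      exact congrArg p.1.2 (Fin.ext (by show (2 * (j : ℕ) + 1) / 2 = (j : ℕ); omega))
  right_inv f := by
    apply SimpleGraph.Copy.ext
    intro i
    show (if (i : ℕ) % 2 = 0 then f ⟨2 * ((i : ℕ) / 2), _⟩ else f ⟨2 * ((i : ℕ) / 2) + 1, _⟩) = f i
    by_cases hi : (i : ℕ) % 2 = 0
    · rw [if_pos hi]
      congr 1
      apply Fin.ext
      simp only
      omega
    · rw [if_neg hi]
      congr 1
      apply Fin.ext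
      simp only
      omega

/-- reversal of a copy of a path -/
def rv {V : Type} {G : SimpleGraph V} {m : ℕ} (f : SimpleGraph.Copy (SimpleGraph.pathGraph m) G) :
    SimpleGraph.Copy (SimpleGraph.pathGraph m) G :=
  ⟨⟨fun i => f (Fin.rev i), by
    intro a b hab
    apply f.toHom.map_adj
    rw [SimpleGraph.pathGraph_adj] at hab ⊢
    rw [Fin.val_rev, Fin.val_rev]
    have := a.2
    have := b.2
    omega⟩, by
    intro a b hab
    exact Fin.rev_injective (f.injective hab)⟩

theorem rv_apply {V : Type} {G : SimpleGraph V} {m : ℕ}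
    (f : SimpleGraph.Copy (SimpleGraph.pathGraph m) G) (i : Fin m) : rv f i = f (Fin.rev i) := rfl

theorem rv_toSubgraph {V : Type} {G : SimpleGraph V} {m : ℕ}
    (f : SimpleGraph.Copy (SimpleGraph.pathGraph m) G) : (rv f).toSubgraph = f.toSubgraph := by
  apply SimpleGraph.Subgraph.ext
  · show (rv f).toHom '' Set.univ = f.toHom '' Set.univ
    ext v
    constructor
    · rintro ⟨i, -, rfl⟩
      exact ⟨Fin.rev i, trivial, rfl⟩
    · rintro ⟨i, -, rfl⟩
      refine ⟨Fin.rev i, trivial, ?_⟩
      show f (Fin.rev (Fin.rev i)) = f i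
      rw [Fin.rev_rev]
  · funext v w
    apply propext
    show Relation.Map (SimpleGraph.pathGraph m).Adj (rv f).toHom (rv f).toHom v w ↔
      Relation.Map (SimpleGraph.pathGraph m).Adj f.toHom f.toHom v w
    constructor
    · rintro ⟨a, b, hab, rfl, rfl⟩
      refine ⟨Fin.rev a, Fin.rev b, ?_, rfl, rfl⟩
      rw [SimpleGraph.pathGraph_adj] at hab ⊢
      rw [Fin.val_rev, Fin.val_rev]
      have := a.2
      have := b.2
      omega
    · rintro ⟨a, b, hab, rfl, rfl⟩
      refine ⟨Fin.rev a, Fin.rev b, ?_, ?_, ?_⟩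
      · rw [SimpleGraph.pathGraph_adj] at hab ⊢
        rw [Fin.val_rev, Fin.val_rev]
        have := a.2
        have := b.2
        omega
      · show f (Fin.rev (Fin.rev a)) = f a
        rw [Fin.rev_rev]
      · show f (Fin.rev (Fin.rev b)) = f b
        rw [Fin.rev_rev]

theorem eq_or_rv {V : Type} {G : SimpleGraph V} {m : ℕ}
    (f g : SimpleGraph.Copy (SimpleGraph.pathGraph m) G) (h : g.toSubgraph = f.toSubgraph) :
    g = f ∨ g = rv f := by
  have hr : ∀ i : Fin m, ∃ j : Fin m, f j = g i := by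
    intro i
    have h1 : g i ∈ g.toSubgraph.verts := ⟨i, trivial, rfl⟩
    rw [h] at h1
    obtain ⟨j, -, hj⟩ := h1
    exact ⟨j, hj⟩
  choose σ hσ using hr
  have hinj : Function.Injective σ := by
    intro a b hab
    apply g.injective
    show g a = g b
    rw [← hσ a, ← hσ b, hab]
  have hstep : ∀ i j : Fin m, (j : ℕ) = i + 1 →
      ((σ i : ℕ) + 1 = σ j ∨ (σ j : ℕ) + 1 = σ i) := by
    intro i j hij
    have h1 : g.toSubgraph.Adj (g i) (g j) := by
      refine ⟨i, j, ?_, rfl, rfl⟩
      show (SimpleGraph.pathGraph m).Adj i j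
      rw [SimpleGraph.pathGraph_adj]
      left
      omega
    rw [h] at h1
    obtain ⟨a, b, hab, ha, hb⟩ := h1
    have hab' : (SimpleGraph.pathGraph m).Adj a b := hab
    rw [SimpleGraph.pathGraph_adj] at hab'
    have ha' : a = σ i := f.injective (ha.trans (hσ i).symm)
    have hb' : b = σ j := f.injective (hb.trans (hσ j).symm)
    rw [← ha', ← hb']
    exact hab'
  rcases aut σ hinj hstep with h1 | h1
  · left
    apply SimpleGraph.Copy.ext
    intro i
    rw [← hσ i, h1 i]
  · right
    apply SimpleGraph.Copy.ext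
    intro i
    rw [rv_apply, ← hσ i, h1 i]

theorem j1a : S_J1a := by
  intro n l hl G
  have hcard : (DP G l).ncard = Fintype.card (SimpleGraph.Copy (SimpleGraph.pathGraph (2 * l)) G) := by
    rw [← Nat.card_coe_set_eq, Nat.card_congr (dpEquiv G l), Nat.card_eq_fintype_card]
  rw [hcard, SimpleGraph.copyCount_eq_card_image_copyToSubgraph]
  rw [← Finset.card_univ, Finset.card_eq_sum_card_image SimpleGraph.Copy.toSubgraph]
  rw [Finset.sum_const_nat (m := 2), mul_comm]
  intro S hS
  rw [Finset.mem_image] at hS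
  obtain ⟨f, -, rfl⟩ := hS
  have : (Finset.univ.filter fun g : SimpleGraph.Copy (SimpleGraph.pathGraph (2 * l)) G =>
      g.toSubgraph = f.toSubgraph) = {f, rv f} := by
    ext g
    rw [Finset.mem_filter, Finset.mem_insert, Finset.mem_singleton]
    constructor
    · rintro ⟨-, h⟩
      exact eq_or_rv f g h
    · rintro (rfl | rfl)
      · exact ⟨Finset.mem_univ _, rfl⟩
      · exact ⟨Finset.mem_univ _, rv_toSubgraph f⟩
  rw [this, Finset.card_pair]
  intro h
  have h1 : f ⟨0, by omega⟩ = rv f ⟨0, by omega⟩ := by rw [← h]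
  rw [rv_apply] at h1
  have h2 := congrArg Fin.val (f.injective h1)
  rw [Fin.val_rev] at h2
  simp only at h2
  omega

end Pool.Agent.Y306.PK
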