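import Pool.Agent.Y494.PK.Stm

/-!
# Project PK: symmetrised counts
-/

set_option autoImplicit false

namespace Pool.Agent.Y306.PK

open Pool.Agent.Y494.PK Classical

theorem nc {α : Type*} [Fintype α] (A : Set α) : A.ncard = ∑ a : α, if a ∈ A then 1 else 0 := by
  rw [Set.ncard_eq_toFinset_card', Finset.sum_boole]
  simp only [Nat.cast_id]
  congr 1
  ext a
  simp

theorem symm_count {V β ι : Type} [Fintype V] [Fintype β] [Fintype ι] [DecidableEq ι]
    (A : Set ((ι → V) × β)) :
    ∑ x : ι → V, {p : Equiv.Perm ι × β | (x ∘ p.1, p.2) ∈ A}.ncard =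
      (Fintype.card ι).factorial * A.ncard := by
  have h1 : ∀ x : ι → V, {p : Equiv.Perm ι × β | (x ∘ p.1, p.2) ∈ A}.ncard =
      ∑ t : Equiv.Perm ι, ∑ b : β, if (x ∘ t, b) ∈ A then 1 else 0 := by
    intro x
    rw [nc, Fintype.sum_prod_type]
    rfl
  simp only [h1]
  rw [Finset.sum_comm]
  have h2 : ∀ t : Equiv.Perm ι, (∑ x : ι → V, ∑ b : β, if (x ∘ t, b) ∈ A then 1 else 0) =
      A.ncard := by
    intro t
    rw [nc, Fintype.sum_prod_type]
    exact Fintype.sum_equiv (Equiv.arrowCongr t.symm (Equiv.refl V)) _ _ (fun x => rfl)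
  simp only [h2]
  rw [Finset.sum_const, Finset.card_univ, Fintype.card_perm, smul_eq_mul]

theorem sym : S_SYM := by
  intro V _ G r S L
  have e1 := symm_count (T1c G r S L)
  have e2 := symm_count (Ec G r S L)
  have e3 := symm_count (Mc G r S L)
  rw [Fintype.card_fin] at e1 e2 e3
  have e1' : ∑ x : Fin (r + 1) → V, (n1 G r S L x : ℝ) =
      ((r + 1).factorial : ℝ) * ((T1c G r S L).ncard : ℝ) := by
    unfold n1
    exact_mod_cast e1
  have e2' : ∑ x : Fin (r + 1) → V, (nE G r S L x : ℝ) =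
      ((r + 1).factorial : ℝ) * ((Ec G r S L).ncard : ℝ) := by
    unfold nE
    exact_mod_cast e2
  have e3' : ∑ x : Fin (r + 1) → V, (nM G r S L x : ℝ) =
      ((r + 1).factorial : ℝ) * ((Mc G r S L).ncard : ℝ) := by
    unfold nM
    exact_mod_cast e3
  unfold br
  rw [Finset.sum_add_distrib, Finset.sum_add_distrib, ← Finset.sum_div, e1', e2', e3']
  ring

end Pool.Agent.Y306.PK
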