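import Pool.Agent.Y494.PK.Stm

/-!
# Project PK: directed paths of the first pattern
-/

set_option autoImplicit false

namespace Pool.Agent.Y306.PK

open Pool.Agent.Y494.PK Classical

theorem ncard_some {V : Type} [Fintype V] (r : ℕ) (U : Set V) :
    {x : Fin (r + 1) → V | ∃ j, x j ∈ U}.ncard ≤ (r + 1) * U.ncard * (Fintype.card V) ^ r := by
  have h1 : {x : Fin (r + 1) → V | ∃ j, x j ∈ U}.toFinset ⊆
      (Finset.univ : Finset (Fin (r + 1))).biUnion
        (fun j => Fintype.piFinset (fun k => if k = j then U.toFinset else Finset.univ)) := by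
    intro x hx
    rw [Set.mem_toFinset] at hx
    obtain ⟨j, hj⟩ := hx
    rw [Finset.mem_biUnion]
    refine ⟨j, Finset.mem_univ _, ?_⟩
    rw [Fintype.mem_piFinset]
    intro k
    by_cases hk : k = j
    · rw [if_pos hk, Set.mem_toFinset, hk]
      exact hj
    · rw [if_neg hk]
      exact Finset.mem_univ _
  have h2 : ∀ j ∈ (Finset.univ : Finset (Fin (r + 1))),
      (Fintype.piFinset (fun k => if k = j then U.toFinset else (Finset.univ : Finset V))).card ≤
        U.ncard * (Fintype.card V) ^ r := by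
    intro j _
    rw [Fintype.card_piFinset]
    have : ∀ k : Fin (r + 1), (if k = j then U.toFinset else (Finset.univ : Finset V)).card =
        if k = j then U.ncard else Fintype.card V := by
      intro k
      by_cases hk : k = j
      · rw [if_pos hk, if_pos hk, Set.ncard_eq_toFinset_card']
      · rw [if_neg hk, if_neg hk, Finset.card_univ]
    simp only [this]
    rw [← Finset.mul_prod_erase Finset.univ _ (Finset.mem_univ j), if_pos rfl]
    apply le_of_eq
    congr 1
    rw [Finset.prod_congr rfl (g := fun _ => Fintype.card V)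
      (fun k hk => if_neg (Finset.ne_of_mem_erase hk)), Finset.prod_const,
      Finset.card_erase_of_mem (Finset.mem_univ j), Finset.card_univ, Fintype.card_fin,
      Nat.add_sub_cancel]
  rw [Set.ncard_eq_toFinset_card']
  calc _ ≤ _ := Finset.card_le_card h1
    _ ≤ (Finset.univ : Finset (Fin (r + 1))).card * (U.ncard * (Fintype.card V) ^ r) :=
        Finset.card_biUnion_le_card_mul _ _ _ h2
    _ = _ := by
      rw [Finset.card_univ, Fintype.card_fin]
      ring

theorem ncard_all {V : Type} [Fintype V] (r : ℕ) (S : Set V) :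
    {h : Fin r → V | ∀ j, h j ∈ S}.ncard = S.ncard ^ r := by
  rw [Set.ncard_eq_toFinset_card']
  have : {h : Fin r → V | ∀ j, h j ∈ S}.toFinset = Fintype.piFinset (fun _ => S.toFinset) := by
    ext h
    rw [Set.mem_toFinset, Fintype.mem_piFinset]
    simp
  rw [this, Fintype.card_piFinset]
  rw [Finset.prod_const, Finset.card_univ, Fintype.card_fin, ← Set.ncard_eq_toFinset_card']

/-- the leading configuration of a directed path of the first pattern -/
noncomputable def fx {V : Type} {l : ℕ} (u w : Fin l → V) (a : ℕ) : Fin l → V :=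
  fun j => if (j : ℕ) < a then u j else w j

theorem lv1_of {V : Type} {G : SimpleGraph V} {S L : Set V} {l : ℕ} (hSL : ∀ v ∈ S, v ∉ L)
    {u w : Fin l → V} (h : IsDP G l u w) {a : ℕ} (ha : 1 ≤ a) (hal : a < l)
    (hp : Pat1 S L u w a) : LV1 G S L (fx u w a) (fx w u a) (a - 1) := by
  have hxL : ∀ j, fx u w a j ∈ L := by
    intro j
    unfold fx
    by_cases hj : (j : ℕ) < a
    · rw [if_pos hj]
      exact ((hp j).1 hj).1
    · rw [if_neg hj]
      exact ((hp j).2 (by omega)).2
  have hhS : ∀ j, fx w u a j ∈ S := by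
    intro j
    unfold fx
    by_cases hj : (j : ℕ) < a
    · rw [if_pos hj]
      exact ((hp j).1 hj).2
    · rw [if_neg hj]
      exact ((hp j).2 (by omega)).1
  refine ⟨?_, ?_, hxL, hhS, by omega, ?_, ?_, ?_, ?_⟩
  · intro i j hij
    unfold fx at hij
    by_cases hi : (i : ℕ) < a
    · by_cases hj : (j : ℕ) < a
      · rw [if_pos hi, if_pos hj] at hij
        exact h.uinj hij
      · rw [if_pos hi, if_neg hj] at hij
        exact absurd hij (h.uw i j)
    · by_cases hj : (j : ℕ) < a
      · rw [if_neg hi, if_pos hj] at hij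
        exact absurd hij.symm (h.uw j i)
      · rw [if_neg hi, if_neg hj] at hij
        exact h.winj hij
  · intro i j hij
    unfold fx at hij
    by_cases hi : (i : ℕ) < a
    · by_cases hj : (j : ℕ) < a
      · rw [if_pos hi, if_pos hj] at hij
        exact h.winj hij
      · rw [if_pos hi, if_neg hj] at hij
        exact absurd hij.symm (h.uw j i)
    · by_cases hj : (j : ℕ) < a
      · rw [if_neg hi, if_pos hj] at hij
        exact absurd hij (h.uw i j)
      · rw [if_neg hi, if_neg hj] at hij
        exact h.uinj hij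
  · intro j
    unfold fx
    by_cases hj : (j : ℕ) < a
    · rw [if_pos hj, if_pos hj]
      exact (h.mat j).symm
    · rw [if_neg hj, if_neg hj]
      exact h.mat j
  · intro j k hjk hk
    unfold fx
    rw [if_pos (show (j : ℕ) < a by omega), if_pos (show (k : ℕ) < a by omega)]
    exact h.con j k hjk
  · intro j k hjk hj
    unfold fx
    rw [if_neg (show ¬ (j : ℕ) < a by omega), if_neg (show ¬ (k : ℕ) < a by omega)]
    exact (h.con j k hjk).symm
  · intro j k hjk hj
    unfold fx
    rw [if_pos (show (j : ℕ) < a by omega), if_neg (show ¬ (k : ℕ) < a by omega)]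
    exact h.con j k hjk

theorem tr1 : S_TR1 := by
  intro V _ G r S L hSL
  set A : Set ((Fin (r + 1) → V) × (Fin (r + 1) → V)) := {p | IsDP G (r + 1) p.1 p.2 ∧
    ∃ a, 1 ≤ a ∧ a < r + 1 ∧ Pat1 S L p.1 p.2 a} with hA
  set U : Set V := {x | x ∈ L ∧ ¬ Cl G (r + 1) S L x} with hU
  have hex : ∀ p : (Fin (r + 1) → V) × (Fin (r + 1) → V), ∃ a : ℕ, p ∈ A →
      1 ≤ a ∧ a < r + 1 ∧ Pat1 S L p.1 p.2 a := by
    intro p
    by_cases hp : p ∈ A
    · obtain ⟨-, a, ha⟩ := hp
      exact ⟨a, fun _ => ha⟩
    · exact ⟨0, fun h => absurd h hp⟩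
  choose a ha using hex
  set F : (Fin (r + 1) → V) × (Fin (r + 1) → V) →
      (Fin (r + 1) → V) × (Fin (r + 1) → V) × Fin (r + 1) := fun p =>
    (fx p.1 p.2 (a p), fx p.2 p.1 (a p), Fin.ofNat (r + 1) (a p - 1)) with hF
  have hval : ∀ p ∈ A, ((F p).2.2 : ℕ) = a p - 1 := by
    intro p hp
    have h1 := ha p hp
    show (a p - 1) % (r + 1) = a p - 1
    exact Nat.mod_eq_of_lt (by omega)
  have hinj : Set.InjOn F A := by
    intro p hp q hq hpq
    have h1 := ha p hp
    have h2 := ha q hq
    have h3 : a p = a q := by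
      have e1 := hval p hp
      have e2 := hval q hq
      rw [hpq] at e1
      omega
    have h4 : fx p.1 p.2 (a p) = fx q.1 q.2 (a q) := congrArg Prod.fst hpq
    have h5 : fx p.2 p.1 (a p) = fx q.2 q.1 (a q) := congrArg (fun z => z.2.1) hpq
    apply Prod.ext
    · funext j
      have e4 := congrFun h4 j
      have e5 := congrFun h5 j
      unfold fx at e4 e5
      rw [← h3] at e4 e5
      by_cases hj : (j : ℕ) < a p
      · rw [if_pos hj, if_pos hj] at e4
        exact e4
      · rw [if_neg hj, if_neg hj] at e5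
        exact e5
    · funext j
      have e4 := congrFun h4 j
      have e5 := congrFun h5 j
      unfold fx at e4 e5
      rw [← h3] at e4 e5
      by_cases hj : (j : ℕ) < a p
      · rw [if_pos hj, if_pos hj] at e5
        exact e5
      · rw [if_neg hj, if_neg hj] at e4
        exact e4
  set X : Set (Fin (r + 1) → V) := {x | ∃ j, x j ∈ U} with hX
  set H : Set (Fin (r + 1) → V) := {h | ∀ j, h j ∈ S} with hH
  have hmaps : F '' A ⊆ T1c G r S L ∪ (X ×ˢ (H ×ˢ (Set.univ : Set (Fin (r + 1))))) := by
    rintro _ ⟨p, hp, rfl⟩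
    have h1 := ha p hp
    have h2 := lv1_of hSL hp.1 h1.1 h1.2.1 h1.2.2
    by_cases hc : ∀ j, Cl G (r + 1) S L ((F p).1 j)
    · left
      refine ⟨?_, hc⟩
      rw [hval p hp]
      exact h2
    · right
      push Not at hc
      obtain ⟨j, hj⟩ := hc
      exact ⟨⟨j, h2.xL j, hj⟩, fun j => h2.hS j, trivial⟩
  rw [← hinj.ncard_image]
  refine (Set.ncard_le_ncard hmaps (Set.toFinite _)).trans ((Set.ncard_union_le _ _).trans ?_)
  apply Nat.add_le_add_left
  rw [Set.ncard_prod, Set.ncard_prod, Set.ncard_univ, Nat.card_eq_fintype_card, Fintype.card_fin,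
    ncard_all]
  calc X.ncard * (S.ncard ^ (r + 1) * (r + 1))
      ≤ ((r + 1) * U.ncard * (Fintype.card V) ^ r) * (S.ncard ^ (r + 1) * (r + 1)) :=
        Nat.mul_le_mul_right _ (ncard_some r U)
    _ = _ := by ring

end Pool.Agent.Y306.PK
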