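import Pool.Agent.Y494.PK.Stm

/-!
# Project PK: unclean lows and unclean pairs
-/

set_option autoImplicit false

namespace Pool.Agent.Y306.PK

open Pool.Agent.Y494.PK Classical

theorem ty_sub {V : Type} (G : SimpleGraph V) (S : Set V) (x : V) : Ty G S x ⊆ S :=
  fun _ ha => ha.1

theorem ucs : S_UCS := by
  intro V _ G l S L
  have hmap : ∀ x ∈ {x | x ∈ L ∧ ¬ Cl G l S L x}.toFinset, Ty G S x ∈ (𝒫 S).toFinset := by
    intro x _
    rw [Set.mem_toFinset]
    exact ty_sub G S x
  have hb : ∀ T ∈ (𝒫 S).toFinset,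
      (({x | x ∈ L ∧ ¬ Cl G l S L x}.toFinset).filter (fun x => Ty G S x = T)).card ≤ 8 * l := by
    intro T _
    rcases Finset.eq_empty_or_nonempty
      (({x | x ∈ L ∧ ¬ Cl G l S L x}.toFinset).filter (fun x => Ty G S x = T)) with he | ⟨x, hx⟩
    · rw [he]
      simp
    · rw [Finset.mem_filter, Set.mem_toFinset] at hx
      obtain ⟨⟨hxL, hxc⟩, hxT⟩ := hx
      have h1 : {y | y ∈ L ∧ Ty G S y = Ty G S x}.ncard < 8 * l := by
        by_contra hcon
        push Not at hcon
        exact hxc ⟨hxL, hcon⟩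
      refine le_trans ?_ h1.le
      rw [Set.ncard_eq_toFinset_card']
      apply Finset.card_le_card
      intro y hy
      rw [Finset.mem_filter, Set.mem_toFinset] at hy
      rw [Set.mem_toFinset]
      exact ⟨hy.1.1, hy.2.trans hxT.symm⟩
  have := Finset.card_le_mul_card_image_of_maps_to hmap (8 * l) hb
  rw [← Set.ncard_eq_toFinset_card', ← Set.ncard_eq_toFinset_card', Set.ncard_powerset] at this
  linarith

/-- disjoint pairs in a set of pairs -/
def Dis {V : Type} (K : Set (V × V)) (t : ℕ) : Prop :=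
  ∃ P Z : Fin t → V, (∀ i, (P i, Z i) ∈ K) ∧ ∀ i j, i ≠ j → P i ≠ P j ∧ Z i ≠ Z j ∧ P i ≠ Z j

theorem exists_last {Q : ℕ → Prop} (N : ℕ) (h0 : Q 0) (hN : ¬ Q N) :
    ∃ t < N, Q t ∧ ¬ Q (t + 1) := by
  induction N with
  | zero => exact absurd h0 hN
  | succ N ih =>
    by_cases h : Q N
    · exact ⟨N, by omega, h, hN⟩
    · obtain ⟨t, ht, h1⟩ := ih h
      exact ⟨t, by omega, h1⟩

theorem few_pairs {V : Type} [Fintype V] (G : SimpleGraph V) (D N : ℕ) (K : Set (V × V))
    (hK : ∀ p ∈ K, G.Adj p.1 p.2 ∧ dg G p.1 ≤ D ∧ dg G p.2 ≤ D) (hN : ¬ Dis K N) :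
    K.ncard ≤ 4 * N * D := by
  have h0 : Dis K 0 := ⟨fun i => i.elim0, fun i => i.elim0, fun i => i.elim0, fun i => i.elim0⟩
  obtain ⟨t, htN, ⟨P, Z, hPZ, hd⟩, hno⟩ := exists_last N h0 hN
  set W : Finset V := Finset.univ.image P ∪ Finset.univ.image Z with hW
  have hWc : W.card ≤ 2 * t := by
    refine (Finset.card_union_le _ _).trans ?_
    have h1 := Finset.card_image_le (s := (Finset.univ : Finset (Fin t))) (f := P)
    have h2 := Finset.card_image_le (s := (Finset.univ : Finset (Fin t))) (f := Z)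
    rw [Finset.card_univ, Fintype.card_fin] at h1 h2
    omega
  have hWD : ∀ v ∈ W, dg G v ≤ D := by
    intro v hv
    rw [hW, Finset.mem_union, Finset.mem_image, Finset.mem_image] at hv
    rcases hv with ⟨i, -, rfl⟩ | ⟨i, -, rfl⟩
    · exact (hK _ (hPZ i)).2.1
    · exact (hK _ (hPZ i)).2.2
  set A : V → Finset (V × V) := fun v =>
    (G.neighborSet v).toFinset.image (fun y => (v, y)) ∪
      (G.neighborSet v).toFinset.image (fun y => (y, v)) with hA
  have hAc : ∀ v ∈ W, (A v).card ≤ 2 * D := by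
    intro v hv
    have h1 := hWD v hv
    unfold dg at h1
    rw [Set.ncard_eq_toFinset_card'] at h1
    refine (Finset.card_union_le _ _).trans ?_
    have h2 := Finset.card_image_le (s := (G.neighborSet v).toFinset) (f := fun y => (v, y))
    have h3 := Finset.card_image_le (s := (G.neighborSet v).toFinset) (f := fun y => (y, v))
    omega
  have hsub : K.toFinset ⊆ W.biUnion A := by
    intro p hp
    rw [Set.mem_toFinset] at hp
    rw [Finset.mem_biUnion]
    have hadj := (hK p hp).1
    by_cases h1 : p.1 ∈ W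
    · refine ⟨p.1, h1, ?_⟩
      rw [hA, Finset.mem_union]
      left
      rw [Finset.mem_image]
      exact ⟨p.2, by rw [Set.mem_toFinset]; exact hadj, rfl⟩
    · by_cases h2 : p.2 ∈ W
      · refine ⟨p.2, h2, ?_⟩
        rw [hA, Finset.mem_union]
        right
        rw [Finset.mem_image]
        exact ⟨p.1, by rw [Set.mem_toFinset]; exact hadj.symm, rfl⟩
      · exfalso
        apply hno
        have hP : ∀ v, v ∉ W → ∀ i, v ≠ P i := by
          rintro v hv i rfl
          apply hv
          rw [hW, Finset.mem_union]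
          left
          exact Finset.mem_image_of_mem _ (Finset.mem_univ _)
        have hZ : ∀ v, v ∉ W → ∀ i, v ≠ Z i := by
          rintro v hv i rfl
          apply hv
          rw [hW, Finset.mem_union]
          right
          exact Finset.mem_image_of_mem _ (Finset.mem_univ _)
        refine ⟨Fin.cons p.1 P, Fin.cons p.2 Z, ?_, ?_⟩
        · intro i
          induction i using Fin.cases with
          | zero => exact hp
          | succ i => exact hPZ i
        · intro i j hij
          induction i using Fin.cases with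
          | zero =>
            induction j using Fin.cases with
            | zero => exact absurd rfl hij
            | succ j =>
              simp only [Fin.cons_zero, Fin.cons_succ]
              exact ⟨hP _ h1 j, hZ _ h2 j, hZ _ h1 j⟩
          | succ i =>
            induction j using Fin.cases with
            | zero =>
              simp only [Fin.cons_zero, Fin.cons_succ]
              exact ⟨(hP _ h1 i).symm, (hZ _ h2 i).symm, (hP _ h2 i).symm⟩
            | succ j =>
              simp only [Fin.cons_succ]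
              exact hd i j (fun h => hij (by rw [h]))
  rw [Set.ncard_eq_toFinset_card']
  calc K.toFinset.card ≤ (W.biUnion A).card := Finset.card_le_card hsub
    _ ≤ W.card * (2 * D) := Finset.card_biUnion_le_card_mul _ _ _ hAc
    _ ≤ (2 * t) * (2 * D) := Nat.mul_le_mul_right _ hWc
    _ ≤ (2 * N) * (2 * D) := Nat.mul_le_mul_right _ (by omega)
    _ = 4 * N * D := by ring

theorem ucp : S_UCP := by
  intro V _ G l D S L hD
  set U : Set (V × V) := {p : V × V | p.1 ∈ L ∧ p.2 ∈ L ∧ G.Adj p.1 p.2 ∧
    ¬ Clp G l S L p.1 p.2} with hU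
  have hmap : ∀ p ∈ U.toFinset, (Ty G S p.1, Ty G S p.2) ∈ (𝒫 S).toFinset ×ˢ (𝒫 S).toFinset := by
    intro p _
    rw [Finset.mem_product, Set.mem_toFinset, Set.mem_toFinset]
    exact ⟨ty_sub G S p.1, ty_sub G S p.2⟩
  have hb : ∀ T ∈ (𝒫 S).toFinset ×ˢ (𝒫 S).toFinset,
      (U.toFinset.filter (fun p => (Ty G S p.1, Ty G S p.2) = T)).card ≤ 32 * l * D := by
    intro T _
    rcases Finset.eq_empty_or_nonempty
      (U.toFinset.filter (fun p => (Ty G S p.1, Ty G S p.2) = T)) with he | ⟨q, hq⟩
    · rw [he]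
      simp
    · rw [Finset.mem_filter, Set.mem_toFinset] at hq
      obtain ⟨⟨hq1, hq2, hq3, hq4⟩, hqT⟩ := hq
      set K : Set (V × V) := {p : V × V | p.1 ∈ L ∧ p.2 ∈ L ∧ G.Adj p.1 p.2 ∧
        Ty G S p.1 = Ty G S q.1 ∧ Ty G S p.2 = Ty G S q.2} with hKdef
      have hno : ¬ Dis K (8 * l) := by
        rintro ⟨P, Z, h1, h2⟩
        apply hq4
        exact ⟨hq1, hq2, hq3, P, Z, fun i => h1 i, h2⟩
      have h3 := few_pairs G D (8 * l) K
        (fun p hp => ⟨hp.2.2.1, hD _ hp.1, hD _ hp.2.1⟩) hno
      refine le_trans ?_ (h3.trans (le_of_eq (by ring)))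
      rw [Set.ncard_eq_toFinset_card']
      apply Finset.card_le_card
      intro p hp
      rw [Finset.mem_filter, Set.mem_toFinset] at hp
      rw [Set.mem_toFinset]
      have h4 := hp.2.trans hqT.symm
      rw [Prod.mk.injEq] at h4
      exact ⟨hp.1.1, hp.1.2.1, hp.1.2.2.1, h4.1, h4.2⟩
  have := Finset.card_le_mul_card_image_of_maps_to hmap (32 * l * D) hb
  rw [Finset.card_product, ← Set.ncard_eq_toFinset_card', ← Set.ncard_eq_toFinset_card',
    Set.ncard_powerset] at this
  refine this.trans (le_of_eq ?_)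
  rw [show (4 : ℕ) = 2 * 2 by norm_num, mul_pow]
  ring

end Pool.Agent.Y306.PK
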